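import Pool.Agent.R267.CondFinal

set_option autoImplicit false

open Filter Topology
open scoped ENNReal

/-!
`ℓ₂` (real or complex) has an equivalent norm and a conditional Schauder basis which has
Property (A) with respect to that norm.
-/

namespace Pool.Agent.Results.MP_2eb999_an.ConditionalPropertyA

/-- the Hilbert space `ℓ₂` over `𝕜` -/
abbrev l2 (𝕜 : Type) [RCLike 𝕜] : Type := lp (fun _ : ℕ => 𝕜) 2

section defs

variable {𝕜 : Type} [RCLike 𝕜]

/-- the (semi)norm `N` is equivalent to the norm of `ℓ₂`; in particular it is a norm -/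
def EquivalentNorm (N : Seminorm 𝕜 (l2 𝕜)) : Prop :=
  ∃ c C : ℝ, 0 < c ∧ 0 < C ∧ ∀ y : l2 𝕜, c * ‖y‖ ≤ N y ∧ N y ≤ C * ‖y‖

/-- `y = ∑ a n • x n`, convergence of the partial sums in the norm `N` -/
def Expands (N : Seminorm 𝕜 (l2 𝕜)) (x : ℕ → l2 𝕜) (a : ℕ → 𝕜) (y : l2 𝕜) : Prop :=
  Tendsto (fun m => N (y - ∑ n ∈ Finset.range m, a n • x n)) atTop (𝓝 0)

/-- `y = ∑ a n • x n`, unconditional convergence (along the net of finite sets) in `N` -/
def ExpandsUnconditionally (N : Seminorm 𝕜 (l2 𝕜)) (x : ℕ → l2 𝕜) (a : ℕ → 𝕜) (y : l2 𝕜) : Prop :=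
  Tendsto (fun t : Finset ℕ => N (y - ∑ n ∈ t, a n • x n)) atTop (𝓝 0)

/-- `x` is a Schauder basis of `(ℓ₂, N)` -/
def SchauderBasis (N : Seminorm 𝕜 (l2 𝕜)) (x : ℕ → l2 𝕜) : Prop :=
  ∀ y : l2 𝕜, ∃! a : ℕ → 𝕜, Expands N x a y

/-- every expansion converges unconditionally -/
def Unconditional (N : Seminorm 𝕜 (l2 𝕜)) (x : ℕ → l2 𝕜) : Prop :=
  ∀ (y : l2 𝕜) (a : ℕ → 𝕜), Expands N x a y → ExpandsUnconditionally N x a y

/-- the sequence `b` is a greedy rearrangement of the sequence `a` -/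
def GreedyRearrangement (a b : ℕ → 𝕜) : Prop :=
  ∃ π : Equiv.Perm ℕ, (∀ n, ‖b (π n)‖ = ‖a n‖) ∧
    ∀ k, 0 < ‖a k‖ → (∃ n, ‖a k‖ < ‖a n‖) → π k = k ∧ b k = a k

/-- Property (A) of the basis `x` with respect to the norm `N` -/
def PropertyA (N : Seminorm 𝕜 (l2 𝕜)) (x : ℕ → l2 𝕜) : Prop :=
  ∀ (y z : l2 𝕜) (a b : ℕ → 𝕜), Expands N x a y → Expands N x b z →
    GreedyRearrangement a b → N y = N z

end defs

theorem result (𝕜 : Type) [RCLike 𝕜] :
    ∃ (N : Seminorm 𝕜 (l2 𝕜)) (x : ℕ → l2 𝕜),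
      EquivalentNorm N ∧ SchauderBasis N x ∧ ¬ Unconditional N x ∧ PropertyA N x := by
  obtain ⟨N, x, xs, ⟨c, C, hc, hC, hN⟩, hbi, hexp, huniq, ⟨y0, hy0⟩, hA, -, -⟩ :=
    Pool.Agent.R267.CF.exists_l2 𝕜
  have hup : ∀ {ι : Type} (F : Filter ι) (u : ι → l2 𝕜) (y : l2 𝕜), Tendsto u F (𝓝 y) →
      Tendsto (fun i => N (y - u i)) F (𝓝 0) := by
    intro ι F u y h
    have h1 : Tendsto (fun i => C * ‖y - u i‖) F (𝓝 0) := by
      have h2 := (tendsto_const_nhds (x := y) (f := F)).sub h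
      rw [sub_self] at h2
      have h3 := (h2.norm).const_mul C
      rwa [norm_zero, mul_zero] at h3
    exact squeeze_zero (fun i => apply_nonneg N _) (fun i => (hN _).2) h1
  have hlow : ∀ {ι : Type} (F : Filter ι) (u : ι → l2 𝕜) (y : l2 𝕜),
      Tendsto (fun i => N (y - u i)) F (𝓝 0) → Tendsto u F (𝓝 y) := by
    intro ι F u y h
    have h1 : Tendsto (fun i => ‖u i - y‖) F (𝓝 0) := by
      have h2 : Tendsto (fun i => c⁻¹ * N (y - u i)) F (𝓝 0) := by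
        have h3 := h.const_mul c⁻¹
        rwa [mul_zero] at h3
      refine squeeze_zero (fun i => norm_nonneg _) (fun i => ?_) h2
      rw [norm_sub_rev, le_inv_mul_iff₀ hc]
      exact (hN _).1
    exact tendsto_iff_norm_sub_tendsto_zero.mpr h1
  have hcoef : ∀ (y : l2 𝕜) (a : ℕ → 𝕜), Expands N x a y → a = fun n => xs n y := by
    intro y a h
    funext n
    exact huniq y a (hlow _ _ _ h) n
  refine ⟨N, x, ⟨c, C, hc, hC, hN⟩, fun y => ⟨fun n => xs n y, hup _ _ _ (hexp y), hcoef y⟩,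
    fun hU => hy0 ?_, ?_⟩
  · have h1 := hlow _ _ _ (hU y0 _ (hup _ _ _ (hexp y0)))
    have h2 : HasSum (fun n => xs n y0 • x n) y0 := h1
    exact h2.summable
  · intro y z a b ha hb hab
    apply hA
    rw [hcoef y a ha, hcoef z b hb] at hab
    exact hab

end Pool.Agent.Results.MP_2eb999_an.ConditionalPropertyA
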